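import Pool.Agent.H30.PF.Targets
import Pool.Agent.H22.MR.Cheb

/-!
Module `M8` of the board pf_modules.
-/

set_option autoImplicit false

open Finset Real
open scoped ArithmeticFunction.vonMangoldt

namespace Pool.Agent.H30.PF.M8

/-- the character mod 8 -/
noncomputable def cx (n : ℕ) : ℝ := if n % 2 = 0 then 0 else if n % 8 = 1 ∨ n % 8 = 7 then 1 else -1

theorem cx_eq (n : ℕ) : cx n = ((ZMod.χ₈ (n : ZMod 8) : ℤ) : ℝ) := by
  rw [ZMod.χ₈_nat_eq_if_mod_eight]
  unfold cx
  split_ifs <;> simp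

theorem cx_mul (m n : ℕ) : cx (m * n) = cx m * cx n := by
  rw [cx_eq, cx_eq, cx_eq]
  push_cast
  rw [map_mul]
  push_cast
  rfl

theorem cx_abs (n : ℕ) : |cx n| ≤ 1 := by
  unfold cx
  split_ifs <;> simp

/-- partial sums of `cx` -/
theorem cx_sum (n : ℕ) : ∑ i ∈ range n, cx i =
    if n % 8 = 2 ∨ n % 8 = 3 then 1 else if n % 8 = 6 ∨ n % 8 = 7 then -1 else 0 := by
  induction n with
  | zero => simp
  | succ n ih =>
    rw [sum_range_succ, ih]
    unfold cx
    have h8 : n % 8 < 8 := Nat.mod_lt _ (by norm_num)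
    have h2 : n % 2 = (n % 8) % 2 := by omega
    have h1 : (n + 1) % 8 = (n % 8 + 1) % 8 := by omega
    rw [h2, h1]
    generalize n % 8 = r at *
    interval_cases r <;> norm_num

theorem cx_sum_abs (n : ℕ) : |∑ i ∈ range n, cx i| ≤ 1 := by
  rw [cx_sum]
  split_ifs <;> simp

/-- Abel summation bound -/
theorem abel (c f : ℕ → ℝ) (B : ℝ) (a : ℕ) (hc : ∀ n, |∑ i ∈ range n, c i| ≤ B)
    (hf : ∀ n, a ≤ n → f (n + 1) ≤ f n) (hf0 : ∀ n, a ≤ n → 0 ≤ f n) (b : ℕ) (hab : a ≤ b) :
    |∑ i ∈ Ico a b, c i * f i| ≤ 2 * B * f a := by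
  have key : |∑ i ∈ Ico a b, c i * f i - (∑ i ∈ range b, c i) * f b| ≤ B * (2 * f a - f b) := by
    induction b, hab using Nat.le_induction with
    | base =>
      rw [Ico_self, sum_empty, zero_sub, abs_neg, abs_mul, abs_of_nonneg (hf0 a le_rfl)]
      have := mul_le_mul_of_nonneg_right (hc a) (hf0 a le_rfl)
      linarith
    | succ b hab ih =>
      rw [sum_Ico_succ_top hab, sum_range_succ]
      have e : ∑ i ∈ Ico a b, c i * f i + c b * f b - (∑ i ∈ range b, c i + c b) * f (b + 1) =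
          (∑ i ∈ Ico a b, c i * f i - (∑ i ∈ range b, c i) * f b) +
          (∑ i ∈ range (b + 1), c i) * (f b - f (b + 1)) := by
        rw [sum_range_succ]
        ring
      rw [e]
      refine (abs_add_le _ _).trans ?_
      rw [abs_mul, abs_of_nonneg (sub_nonneg.2 (hf b hab))]
      have := mul_le_mul_of_nonneg_right (hc (b + 1)) (sub_nonneg.2 (hf b hab))
      linarith
  have h1 : |(∑ i ∈ range b, c i) * f b| ≤ B * f b := by
    rw [abs_mul, abs_of_nonneg (hf0 b hab)]
    exact mul_le_mul_of_nonneg_right (hc b) (hf0 b hab)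
  have h2 : ∑ i ∈ Ico a b, c i * f i =
      (∑ i ∈ Ico a b, c i * f i - (∑ i ∈ range b, c i) * f b) + (∑ i ∈ range b, c i) * f b := by
    ring
  rw [h2]
  refine (abs_add_le _ _).trans ?_
  linarith

/-- partial sums of `L(1, χ)` -/
noncomputable def H (N : ℕ) : ℝ := ∑ m ∈ Icc 1 N, cx m * (1 / m)

theorem H_diff {M N : ℕ} (h : M ≤ N) : |H N - H M| ≤ 2 / (M + 1) := by
  have e : H N - H M = ∑ m ∈ Ico (M + 1) (N + 1), cx m * (1 / m) := by
    unfold H
    have h1 : Icc 1 N = Icc 1 M ∪ Ico (M + 1) (N + 1) := by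
      ext x
      simp only [mem_union, mem_Icc, mem_Ico]
      omega
    have h2 : Disjoint (Icc 1 M) (Ico (M + 1) (N + 1)) := by
      rw [Finset.disjoint_left]
      intro x hx hx'
      simp only [mem_Icc, mem_Ico] at hx hx'
      omega
    rw [h1, sum_union h2]
    ring
  rw [e]
  have := abel cx (fun m : ℕ => 1 / (m : ℝ)) 1 (M + 1) cx_sum_abs ?_ ?_ (N + 1) (by omega)
  · refine this.trans (le_of_eq ?_)
    push_cast
    ring
  · intro n hn
    have h1 : (0 : ℝ) < n := by
      have : 0 < n := by omega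
      exact_mod_cast this
    refine one_div_le_one_div_of_le h1 ?_
    push_cast
    linarith
  · intro n _
    positivity

theorem H7 : H 7 = 64 / 105 := by
  unfold H
  simp only [sum_Icc_succ_top (show 1 ≤ 7 by norm_num), sum_Icc_succ_top (show 1 ≤ 6 by norm_num),
    sum_Icc_succ_top (show 1 ≤ 5 by norm_num), sum_Icc_succ_top (show 1 ≤ 4 by norm_num),
    sum_Icc_succ_top (show 1 ≤ 3 by norm_num), sum_Icc_succ_top (show 1 ≤ 2 by norm_num), cx]
  norm_num

theorem H_ge {N : ℕ} (hN : 1 ≤ N) : 1 / 3 ≤ H N := by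
  rcases Nat.lt_or_ge N 7 with h | h
  · unfold H
    interval_cases N
    · norm_num [cx]
    · simp only [sum_Icc_succ_top (show 1 ≤ 2 by norm_num), cx]
      norm_num
    · simp only [sum_Icc_succ_top (show 1 ≤ 3 by norm_num),
        sum_Icc_succ_top (show 1 ≤ 2 by norm_num), cx]
      norm_num
    · simp only [sum_Icc_succ_top (show 1 ≤ 4 by norm_num),
        sum_Icc_succ_top (show 1 ≤ 3 by norm_num), sum_Icc_succ_top (show 1 ≤ 2 by norm_num), cx]
      norm_num
    · simp only [sum_Icc_succ_top (show 1 ≤ 5 by norm_num),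
        sum_Icc_succ_top (show 1 ≤ 4 by norm_num),
        sum_Icc_succ_top (show 1 ≤ 3 by norm_num), sum_Icc_succ_top (show 1 ≤ 2 by norm_num), cx]
      norm_num
    · simp only [sum_Icc_succ_top (show 1 ≤ 6 by norm_num),
        sum_Icc_succ_top (show 1 ≤ 5 by norm_num),
        sum_Icc_succ_top (show 1 ≤ 4 by norm_num),
        sum_Icc_succ_top (show 1 ≤ 3 by norm_num), sum_Icc_succ_top (show 1 ≤ 2 by norm_num), cx]
      norm_num
  · have h1 := H_diff h
    rw [H7] at h1
    have h2 := (abs_le.1 h1).1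
    norm_num at h2
    linarith

theorem id_log (N : ℕ) : ∑ k ∈ Icc 1 N, cx k * (log k / k) =
    ∑ d ∈ Icc 1 N, cx d * (Λ d / d) * H (N / d) := by
  have h1 : ∀ k ∈ Icc 1 N, cx k * (log k / k) =
      ∑ d ∈ Icc 1 N, if d ∣ k then Λ d * (cx k / k) else 0 := by
    intro k hk
    rw [mem_Icc] at hk
    have e : cx k * (log k / k) = log k * (cx k / k) := by ring
    rw [e, ← ArithmeticFunction.vonMangoldt_sum, Finset.sum_mul, ← Finset.sum_filter]
    apply Finset.sum_congr _ (fun _ _ => rfl)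
    ext d
    simp only [Nat.mem_divisors, mem_filter, mem_Icc]
    constructor
    · rintro ⟨h1, h2⟩
      exact ⟨⟨Nat.pos_of_dvd_of_pos h1 (by omega), (Nat.le_of_dvd (by omega) h1).trans hk.2⟩, h1⟩
    · rintro ⟨_, h2⟩
      exact ⟨h2, by omega⟩
  rw [Finset.sum_congr rfl h1, Finset.sum_comm]
  apply Finset.sum_congr rfl
  intro d hd
  rw [mem_Icc] at hd
  have hd0 : 0 < d := by omega
  rw [← Finset.sum_filter]
  unfold H
  rw [Finset.mul_sum]
  symm
  refine Finset.sum_nbij' (fun m => d * m) (fun k => k / d) ?_ ?_ ?_ ?_ ?_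
  · intro m hm
    rw [mem_Icc] at hm
    simp only [mem_filter, mem_Icc]
    refine ⟨⟨Nat.mul_pos hd0 (by omega), ?_⟩, ⟨m, rfl⟩⟩
    calc d * m ≤ d * (N / d) := Nat.mul_le_mul_left _ hm.2
      _ ≤ N := Nat.mul_div_le N d
  · intro k hk
    simp only [mem_filter, mem_Icc] at hk
    rw [mem_Icc]
    exact ⟨Nat.div_pos (Nat.le_of_dvd (by omega) hk.2) hd0, Nat.div_le_div_right hk.1.2⟩
  · intro m _
    exact Nat.mul_div_cancel_left m hd0
  · intro k hk
    simp only [mem_filter, mem_Icc] at hk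
    exact Nat.mul_div_cancel' hk.2
  · intro m hm
    rw [mem_Icc] at hm
    have hm0 : (m : ℝ) ≠ 0 := by
      have : m ≠ 0 := by omega
      exact_mod_cast this
    have hd0' : (d : ℝ) ≠ 0 := by exact_mod_cast hd0.ne'
    rw [cx_mul]
    push_cast
    field_simp

theorem log_part {N : ℕ} (hN : 3 ≤ N) : |∑ k ∈ Icc 1 N, cx k * (log k / k)| ≤ 4 / 3 := by
  have h1 : Icc 1 N = Icc 1 2 ∪ Ico 3 (N + 1) := by
    ext x
    simp only [mem_union, mem_Icc, mem_Ico]
    omega
  have h2 : Disjoint (Icc 1 2) (Ico 3 (N + 1)) := by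
    rw [Finset.disjoint_left]
    intro x hx hx'
    simp only [mem_Icc, mem_Ico] at hx hx'
    omega
  rw [h1, sum_union h2, sum_Icc_succ_top (show 1 ≤ 2 by norm_num), Icc_self, sum_singleton]
  have h3 : cx (1 + 1) = 0 := by norm_num [cx]
  have h4 : cx 1 * (log ((1 : ℕ) : ℝ) / ((1 : ℕ) : ℝ)) = 0 := by simp
  rw [h3, h4, zero_mul, zero_add, zero_add]
  have h5 := abel cx (fun m : ℕ => log m / (m : ℝ)) 1 3 cx_sum_abs ?_ ?_ (N + 1) (by omega)
  · refine h5.trans ?_
    have h6 : log ((3 : ℕ) : ℝ) ≤ 3 - 1 := by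
      push_cast
      exact log_le_sub_one_of_pos (by norm_num)
    push_cast at h6 ⊢
    linarith
  · intro n hn
    have h6 : exp 1 ≤ (n : ℝ) := by
      have : (3 : ℝ) ≤ n := by exact_mod_cast hn
      linarith [Pool.Agent.H22.MR.exp1_lt3]
    refine log_div_self_antitoneOn (show exp 1 ≤ ((n : ℕ) : ℝ) from h6) ?_ ?_
    · show exp 1 ≤ ((n + 1 : ℕ) : ℝ)
      push_cast
      linarith
    · push_cast
      linarith
  · intro n hn
    have : (1 : ℝ) ≤ n := by
      have : 1 ≤ n := by omega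
      exact_mod_cast this
    exact div_nonneg (log_nonneg this) (by linarith)

/-- `∑ χ(d) Λ(d) / d` is bounded -/
theorem T_bound {N : ℕ} (hN : 3 ≤ N) : |∑ d ∈ Icc 1 N, cx d * (Λ d / d)| ≤ 40 := by
  have hN0 : (0 : ℝ) < N := by
    have : 0 < N := by omega
    exact_mod_cast this
  set T := ∑ d ∈ Icc 1 N, cx d * (Λ d / d) with hT
  have hL := H_ge (show 1 ≤ N by omega)
  have e : H N * T = ∑ k ∈ Icc 1 N, cx k * (log k / k) -
      ∑ d ∈ Icc 1 N, cx d * (Λ d / d) * (H (N / d) - H N) := by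
    rw [id_log, ← sum_sub_distrib, hT, mul_sum]
    refine sum_congr rfl fun d _ => ?_
    ring
  have h2 : |∑ d ∈ Icc 1 N, cx d * (Λ d / d) * (H (N / d) - H N)| ≤ 12 := by
    refine (abs_sum_le_sum_abs _ _).trans ?_
    have h3 : ∀ d ∈ Icc 1 N, |cx d * (Λ d / d) * (H (N / d) - H N)| ≤ Λ d * (2 / N) := by
      intro d hd
      rw [mem_Icc] at hd
      have hd0 : (0 : ℝ) < d := by
        have : 0 < d := by omega
        exact_mod_cast this
      have hΛ : 0 ≤ Λ d := ArithmeticFunction.vonMangoldt_nonneg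
      have h4 : |H (N / d) - H N| ≤ 2 * d / N := by
        rw [abs_sub_comm]
        refine (H_diff (Nat.div_le_self N d)).trans ?_
        rw [div_le_div_iff₀ (by positivity) hN0]
        have h5 : N < d * (N / d + 1) := Nat.lt_mul_div_succ N (by omega)
        have h6 : (N : ℝ) ≤ d * (((N / d : ℕ) : ℝ) + 1) := by exact_mod_cast h5.le
        nlinarith
      rw [abs_mul, abs_mul, abs_of_nonneg (div_nonneg hΛ hd0.le)]
      calc |cx d| * (Λ d / d) * |H (N / d) - H N| ≤ 1 * (Λ d / d) * (2 * d / N) := by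
            refine mul_le_mul ?_ h4 (abs_nonneg _) (by positivity)
            exact mul_le_mul_of_nonneg_right (cx_abs d) (div_nonneg hΛ hd0.le)
        _ = Λ d * (2 / N) := by
            field_simp
    refine (sum_le_sum h3).trans ?_
    rw [← sum_mul]
    have h7 := Pool.Agent.H22.MR.psi_bound (N : ℝ) hN0.le
    rw [Nat.floor_natCast] at h7
    calc (∑ d ∈ Icc 1 N, Λ d) * (2 / N) ≤ 6 * N * (2 / N) :=
          mul_le_mul_of_nonneg_right h7 (by positivity)
      _ = 12 := by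
          field_simp
          norm_num
  have h8 : |H N * T| ≤ 4 / 3 + 12 := by
    rw [e]
    refine (abs_sub _ _).trans ?_
    linarith [log_part hN]
  rw [abs_mul, abs_of_nonneg (by linarith)] at h8
  have h9 : 1 / 3 * |T| ≤ H N * |T| := mul_le_mul_of_nonneg_right hL (abs_nonneg _)
  linarith

theorem nonprime_bound : ∃ C : ℝ, 0 ≤ C ∧ ∀ s : Finset ℕ,
    ∑ m ∈ s.filter (fun m => ¬ m.Prime), Λ m / m ≤ C := by
  have h := ArithmeticFunction.vonMangoldt.summable_residueClass_non_primes_div (q := 1) 0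
  have h1 : ∀ n : ℕ, (if n.Prime then 0 else
      ArithmeticFunction.vonMangoldt.residueClass (0 : ZMod 1) n) / (n : ℝ) =
      if n.Prime then 0 else Λ n / n := by
    intro n
    have h2 : ArithmeticFunction.vonMangoldt.residueClass (0 : ZMod 1) n = Λ n := by
      rw [ArithmeticFunction.vonMangoldt.residueClass]
      refine Set.indicator_of_mem ?_ _
      exact Subsingleton.elim _ _
    rw [h2]
    split_ifs <;> simp
  rw [summable_congr h1] at h
  have h0 : ∀ n : ℕ, 0 ≤ (if n.Prime then 0 else Λ n / (n : ℝ)) := by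
    intro n
    split_ifs
    · exact le_rfl
    · exact div_nonneg ArithmeticFunction.vonMangoldt_nonneg (Nat.cast_nonneg n)
  refine ⟨∑' n : ℕ, (if n.Prime then 0 else Λ n / (n : ℝ)), tsum_nonneg h0,
    fun s => ?_⟩
  refine le_trans (le_of_eq ?_) (h.sum_le_tsum s fun n _ => h0 n)
  rw [Finset.sum_filter]
  refine Finset.sum_congr rfl fun n _ => ?_
  split_ifs <;> rfl

/-- summand over primes -/
noncomputable def ap (n : ℕ) : ℝ := if n.Prime then cx n * (log n / n) else 0

theorem ap_bound : ∃ B : ℝ, 0 ≤ B ∧ ∀ n : ℕ, |∑ i ∈ range n, ap i| ≤ B := by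
  obtain ⟨C, hC, hnp⟩ := nonprime_bound
  refine ⟨40 + C, by linarith, fun n => ?_⟩
  rcases Nat.lt_or_ge n 4 with h | h
  · have h0 : ∑ i ∈ range n, ap i = 0 := by
      refine sum_eq_zero fun i hi => ?_
      rw [mem_range] at hi
      have hi3 : i < 3 := by omega
      unfold ap
      interval_cases i
      · rw [if_neg Nat.not_prime_zero]
      · rw [if_neg Nat.not_prime_one]
      · rw [if_pos Nat.prime_two]
        norm_num [cx]
    rw [h0, abs_zero]
    linarith
  obtain ⟨N, rfl⟩ : ∃ N, n = N + 1 := ⟨n - 1, by omega⟩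
  have hr : ∑ i ∈ range (N + 1), ap i = ∑ i ∈ Icc 1 N, ap i := by
    rw [sum_range_succ']
    have h1 : ap 0 = 0 := by simp [ap, Nat.not_prime_zero]
    rw [h1, add_zero]
    have := sum_Ico_add' ap 0 N 1
    rw [range_eq_Ico, this]
    rfl
  have hsp : ∑ i ∈ Icc 1 N, ap i = ∑ d ∈ Icc 1 N, cx d * (Λ d / d) -
      ∑ d ∈ (Icc 1 N).filter (fun m => ¬ m.Prime), cx d * (Λ d / d) := by
    rw [sum_filter, ← sum_sub_distrib]
    refine sum_congr rfl fun d _ => ?_
    unfold ap
    split_ifs with h1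
    · rw [ArithmeticFunction.vonMangoldt_apply_prime h1, sub_zero]
    · rw [sub_self]
  rw [hr, hsp]
  refine (abs_sub _ _).trans (add_le_add (T_bound (by omega)) ?_)
  refine (abs_sum_le_sum_abs _ _).trans (le_trans (sum_le_sum fun d _ => ?_) (hnp (Icc 1 N)))
  have hΛ : 0 ≤ Λ d / (d : ℝ) :=
    div_nonneg ArithmeticFunction.vonMangoldt_nonneg (Nat.cast_nonneg d)
  rw [abs_mul, abs_of_nonneg hΛ]
  have := mul_le_mul_of_nonneg_right (cx_abs d) hΛ
  linarith

theorem m8 : T_MR → T_M8 := by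
  rintro ⟨C, hMR⟩
  obtain ⟨B, hB, hap⟩ := ap_bound
  refine ⟨(C + 1 - log (log 2)) / 2 + B, fun y hy => ?_⟩
  have hy0 : (3 : ℝ) ≤ y := by exact_mod_cast hy
  have hl2 : 0 < log 2 := log_pos (by norm_num)
  have hly : 0 < log y := log_pos (by linarith)
  -- the character sum
  have h1 : |∑ i ∈ Ico 3 (y + 1), ap i * (1 / log i)| ≤ 2 * B * (1 / log ((3 : ℕ) : ℝ)) := by
    refine abel ap (fun i : ℕ => 1 / log (i : ℝ)) B 3 hap ?_ ?_ (y + 1) (by omega)
    · intro n hn
      have h2 : (3 : ℝ) ≤ n := by exact_mod_cast hn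
      refine one_div_le_one_div_of_le (log_pos (by linarith)) ?_
      refine log_le_log (by linarith) ?_
      push_cast
      linarith
    · intro n hn
      have h2 : (3 : ℝ) ≤ n := by exact_mod_cast hn
      exact (one_div_pos.2 (log_pos (by linarith))).le
  have hl3 : 1 ≤ log ((3 : ℕ) : ℝ) := by
    rw [le_log_iff_exp_le (by norm_num)]
    push_cast
    exact Pool.Agent.H22.MR.exp1_lt3.le
  have h2 : ∑ i ∈ Ico 3 (y + 1), ap i * (1 / log i) ≤ 2 * B := by
    refine (le_abs_self _).trans (h1.trans ?_)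
    have h3 : 1 / log ((3 : ℕ) : ℝ) ≤ 1 := by
      rw [div_le_one (by linarith)]
      exact hl3
    have := mul_le_mul_of_nonneg_left h3 (show 0 ≤ 2 * B by linarith)
    linarith
  have h3 : ∑ i ∈ Ico 3 (y + 1), ap i * (1 / log i) =
      ∑ q ∈ (Ioc 2 y).filter Nat.Prime, cx q * (1 / q) := by
    rw [sum_filter]
    have e : Ico 3 (y + 1) = Ioc 2 y := by
      ext x
      simp only [mem_Ico, mem_Ioc]
      omega
    rw [e]
    refine sum_congr rfl fun q hq => ?_
    rw [mem_Ioc] at hq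
    unfold ap
    split_ifs
    · have h4 : (2 : ℝ) < q := by exact_mod_cast hq.1
      have h5 : log (q : ℝ) ≠ 0 := (log_pos (by linarith)).ne'
      field_simp
    · rw [zero_mul]
  have h4 := hMR 2 y le_rfl (by omega)
  have h5 : ∑ q ∈ (Icc 1 y).filter (fun q => q.Prime ∧ S8 q), (1 : ℝ) / q ≤
      ∑ q ∈ (Ioc 2 y).filter Nat.Prime, (1 + cx q) / 2 * (1 / q) := by
    have e1 : (Icc 1 y).filter (fun q => q.Prime ∧ S8 q) ⊆ (Ioc 2 y).filter Nat.Prime := by
      intro q hq
      simp only [mem_filter, mem_Icc, mem_Ioc] at hq ⊢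
      obtain ⟨⟨h6, h7⟩, h8, h9⟩ := hq
      refine ⟨⟨?_, h7⟩, h8⟩
      have := h8.two_le
      rcases h9 with h9 | h9 <;> omega
    have e2 : ∑ q ∈ (Icc 1 y).filter (fun q => q.Prime ∧ S8 q), (1 : ℝ) / q =
        ∑ q ∈ (Icc 1 y).filter (fun q => q.Prime ∧ S8 q), (1 + cx q) / 2 * (1 / q) := by
      refine sum_congr rfl fun q hq => ?_
      rw [mem_filter] at hq
      have h9 : q % 8 = 1 ∨ q % 8 = 7 := hq.2.2
      have h10 : cx q = 1 := by
        unfold cx
        rw [if_neg, if_pos h9]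
        rcases h9 with h9 | h9 <;> omega
      rw [h10]
      ring
    rw [e2]
    refine sum_le_sum_of_subset_of_nonneg e1 fun q _ _ => ?_
    have := (abs_le.1 (cx_abs q)).1
    have h11 : 0 ≤ (1 + cx q) / 2 := by linarith
    positivity
  have h6 : ∑ q ∈ (Ioc 2 y).filter Nat.Prime, (1 + cx q) / 2 * (1 / q) =
      1 / 2 * ∑ q ∈ (Ioc 2 y).filter Nat.Prime, (1 : ℝ) / q +
      1 / 2 * ∑ q ∈ (Ioc 2 y).filter Nat.Prime, cx q * (1 / q) := by
    rw [mul_sum, mul_sum, ← sum_add_distrib]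
    refine sum_congr rfl fun q _ => ?_
    ring
  have h7 : log (log y / log ((2 : ℕ) : ℝ)) = log (log y) - log (log 2) := by
    push_cast
    exact log_div hly.ne' hl2.ne'
  rw [h7] at h4
  rw [← h3] at h6
  linarith

end Pool.Agent.H30.PF.M8
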