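import Pool.Agent.H30.PF.Targets

/-!
Module `EU` of the board pf_modules.
-/

set_option autoImplicit false

open Finset Real

namespace Pool.Agent.H30.PF

/-- the summand of `T_EU` -/
noncomputable def fEU (z : ℝ) (d : ℕ) : ℝ := G z d * 2 ^ d.primeFactors.card / d.totient

/-- the local summand -/
noncomputable def hEU (z : ℝ) (q a : ℕ) : ℝ :=
  if a = 0 then 1 else 2 * (z ^ a - z ^ (a - 1)) / (q ^ a).totient

theorem fEU_nonneg {z : ℝ} (hz : 1 ≤ z) (d : ℕ) : 0 ≤ fEU z d := by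
  have h : 0 ≤ G z d :=
    prod_nonneg fun _ _ => sub_nonneg.2 (pow_le_pow_right₀ hz (Nat.sub_le _ _))
  unfold fEU
  positivity

theorem hEU_nonneg {z : ℝ} (hz : 1 ≤ z) (q a : ℕ) : 0 ≤ hEU z q a := by
  unfold hEU
  split_ifs
  · exact zero_le_one
  · have h : 0 ≤ z ^ a - z ^ (a - 1) := sub_nonneg.2 (pow_le_pow_right₀ hz (Nat.sub_le _ _))
    positivity

theorem fEU_mul (z : ℝ) {q a m : ℕ} (hq : q.Prime) (hm : m ≠ 0) (hqm : ¬ q ∣ m) :
    fEU z (q ^ a * m) = hEU z q a * fEU z m := by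
  rcases Nat.eq_zero_or_pos a with rfl | ha
  · simp [hEU]
  have hcop : Nat.Coprime (q ^ a) m := Nat.Coprime.pow_left a ((Nat.Prime.coprime_iff_not_dvd hq).2 hqm)
  have hpf : (q ^ a * m).primeFactors = insert q m.primeFactors := by
    rw [hcop.primeFactors_mul, Nat.primeFactors_prime_pow ha.ne' hq]
    rfl
  have hqn : q ∉ m.primeFactors := fun h => hqm (Nat.dvd_of_mem_primeFactors h)
  have hq0 : q ^ a ≠ 0 := pow_ne_zero _ hq.ne_zero
  have hfac : ∀ r : ℕ, (q ^ a * m).factorization r = (q ^ a).factorization r + m.factorization r := by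
    intro r
    rw [Nat.factorization_mul hq0 hm]
    rfl
  have hG : G z (q ^ a * m) = (z ^ a - z ^ (a - 1)) * G z m := by
    unfold G
    rw [hpf, prod_insert hqn]
    have h1 : (q ^ a * m).factorization q = a := by
      rw [hfac, hq.factorization_pow, Finsupp.single_eq_same,
        Nat.factorization_eq_zero_of_not_dvd hqm, add_zero]
    rw [h1]
    refine congrArg _ (prod_congr rfl fun r hr => ?_)
    have hrq : r ≠ q := fun h => hqn (h ▸ hr)
    have h2 : (q ^ a * m).factorization r = m.factorization r := by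
      rw [hfac, hq.factorization_pow, Finsupp.single_eq_of_ne hrq, zero_add]
    rw [h2]
  unfold fEU hEU
  rw [if_neg ha.ne', hG, hpf, card_insert_of_notMem hqn, Nat.totient_mul hcop, pow_succ]
  push_cast
  rw [div_mul_div_comm]
  refine congrArg₂ _ ?_ rfl
  ring

theorem local_EU {z : ℝ} (hz : 1 ≤ z) {q : ℕ} (hq : q.Prime) (hq3 : 3 ≤ q) (hqz : 2 * z ≤ (q : ℝ))
    (A : ℕ) : ∑ a ∈ range (A + 1), hEU z q a ≤
      1 + (2 * (z - 1) * (1 / q) + 6 * (z - 1) * (z + 1) * (1 / (q : ℝ) ^ 2)) := by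
  have hq3' : (3 : ℝ) ≤ q := by exact_mod_cast hq3
  have hq0 : (0 : ℝ) < q := by linarith
  have hq1 : (0 : ℝ) < q - 1 := by linarith
  have hqz' : (0 : ℝ) < q - z := by linarith
  have h1 : ∀ a : ℕ, hEU z q (a + 1) = 2 * (z - 1) / (q - 1) * (z / q) ^ a := by
    intro a
    unfold hEU
    rw [if_neg (Nat.succ_ne_zero a), Nat.totient_prime_pow_succ hq, Nat.add_sub_cancel]
    push_cast [hq.one_le]
    rw [div_pow, pow_succ]
    field_simp
  rw [sum_range_succ' (fun a => hEU z q a)]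
  have h0 : hEU z q 0 = 1 := by simp [hEU]
  rw [h0]
  simp only [h1]
  rw [← mul_sum]
  have hr0 : 0 ≤ z / q := by positivity
  have hr1 : z / q < 1 := by
    rw [div_lt_one hq0]
    linarith
  have h2 : ∑ i ∈ range A, (z / q) ^ i ≤ q / (q - z) := by
    have h3 : ∑ i ∈ range A, (z / q) ^ i ≤ (1 - z / q)⁻¹ := by
      rw [← tsum_geometric_of_lt_one hr0 hr1]
      exact (summable_geometric_of_lt_one hr0 hr1).sum_le_tsum _ (fun _ _ => by positivity)
    refine h3.trans (le_of_eq ?_)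
    have : (1 - z / q) ≠ 0 := by linarith
    have h4 : (q : ℝ) - z ≠ 0 := hqz'.ne'
    field_simp
  have h5 : (q : ℝ) / ((q - 1) * (q - z)) ≤ 1 / q + 3 * (z + 1) * (1 / (q : ℝ) ^ 2) := by
    have e1 : (1 : ℝ) / q + 3 * (z + 1) * (1 / (q : ℝ) ^ 2) = (q + 3 * (z + 1)) / (q : ℝ) ^ 2 := by
      field_simp
    rw [e1, div_le_div_iff₀ (by positivity) (by positivity)]
    have e2 : (q : ℝ) * (2 * q) ≤ 6 * ((q - 1) * (q - z)) := by
      have : (2 / 3 * (q : ℝ)) * (q / 2) ≤ (q - 1) * (q - z) :=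
        mul_le_mul (by linarith) (by linarith) (by positivity) (by linarith)
      nlinarith
    have e3 : (q : ℝ) * q ^ 2 = q * ((q - 1) * (q - z)) + q * ((z + 1) * q - z) := by ring
    have e6 : ((q : ℝ) + 3 * (z + 1)) * ((q - 1) * (q - z)) =
        q * ((q - 1) * (q - z)) + 3 * (z + 1) * ((q - 1) * (q - z)) := by ring
    rw [e3, e6]
    have e4 : (q : ℝ) * ((z + 1) * q - z) ≤ (z + 1) * (q * q) := by
      have : 0 ≤ z * q := by positivity
      nlinarith
    have e5 : (z + 1) * ((q : ℝ) * (2 * q)) ≤ (z + 1) * (6 * ((q - 1) * (q - z))) :=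
      mul_le_mul_of_nonneg_left e2 (by linarith)
    nlinarith
  have h6 : 2 * (z - 1) / (q - 1) * ∑ i ∈ range A, (z / q) ^ i ≤
      2 * (z - 1) * (q / ((q - 1) * (q - z))) := by
    calc 2 * (z - 1) / (q - 1) * ∑ i ∈ range A, (z / q) ^ i
        ≤ 2 * (z - 1) / (q - 1) * (q / (q - z)) :=
          mul_le_mul_of_nonneg_left h2 (div_nonneg (by linarith) hq1.le)
      _ = 2 * (z - 1) * (q / ((q - 1) * (q - z))) := by
          field_simp
  have h7 := mul_le_mul_of_nonneg_left h5 (show 0 ≤ 2 * (z - 1) by linarith)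
  linarith

theorem prod_EU {z : ℝ} (hz : 1 ≤ z) (P : Finset ℕ) :
    (∀ q ∈ P, q.Prime ∧ 3 ≤ q ∧ 2 * z ≤ (q : ℝ)) → ∀ D : Finset ℕ,
    (∀ d ∈ D, d ≠ 0 ∧ d.primeFactors ⊆ P) → ∑ d ∈ D, fEU z d ≤
      ∏ q ∈ P, (1 + (2 * (z - 1) * (1 / q) + 6 * (z - 1) * (z + 1) * (1 / (q : ℝ) ^ 2))) := by
  classical
  induction P using Finset.induction_on with
  | empty =>
    intro _ D hD
    have hD1 : D ⊆ {1} := by
      intro d hd
      obtain ⟨h0, h1⟩ := hD d hd
      have h2 : d.primeFactors = ∅ := subset_empty.1 h1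
      rw [Nat.primeFactors_eq_empty] at h2
      rw [mem_singleton]
      omega
    rw [prod_empty]
    calc ∑ d ∈ D, fEU z d ≤ ∑ d ∈ ({1} : Finset ℕ), fEU z d :=
          sum_le_sum_of_subset_of_nonneg hD1 (fun d _ _ => fEU_nonneg hz d)
      _ = 1 := by simp [fEU, G]
  | insert q P hqP ih =>
    intro hP D hD
    obtain ⟨hq, hq3, hqz⟩ := hP q (mem_insert_self _ _)
    have ih' := ih (fun r hr => hP r (mem_insert_of_mem hr))
    set A := D.sup (fun d => d.factorization q) with hA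
    set D' := D.image (fun d => d / q ^ d.factorization q) with hD'
    have hD'1 : ∀ d ∈ D', d ≠ 0 ∧ d.primeFactors ⊆ P := by
      intro e he
      rw [hD', mem_image] at he
      obtain ⟨d, hd, rfl⟩ := he
      obtain ⟨h0, h1⟩ := hD d hd
      have hpos : 0 < d / q ^ d.factorization q := Nat.ordCompl_pos q h0
      refine ⟨hpos.ne', fun r hr => ?_⟩
      have h2 : r ∣ d := (Nat.dvd_of_mem_primeFactors hr).trans (Nat.ordCompl_dvd d q)
      have h3 : r ∈ d.primeFactors := Nat.mem_primeFactors.2 ⟨Nat.prime_of_mem_primeFactors hr, h2, h0⟩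
      rcases mem_insert.1 (h1 h3) with h4 | h4
      · exfalso
        rw [h4] at hr
        exact Nat.not_dvd_ordCompl hq h0 (Nat.dvd_of_mem_primeFactors hr)
      · exact h4
    have hinj : Set.InjOn (fun d : ℕ => (d.factorization q, d / q ^ d.factorization q)) D := by
      intro d _ e _ hde
      simp only [Prod.mk.injEq] at hde
      rw [← Nat.ordProj_mul_ordCompl_eq_self d q, ← Nat.ordProj_mul_ordCompl_eq_self e q, hde.2,
        hde.1]
    rw [prod_insert hqP]
    calc ∑ d ∈ D, fEU z d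
        = ∑ d ∈ D, hEU z q (d.factorization q) * fEU z (d / q ^ d.factorization q) := by
          refine sum_congr rfl fun d hd => ?_
          obtain ⟨h0, _⟩ := hD d hd
          rw [← fEU_mul z hq (Nat.ordCompl_pos q h0).ne' (Nat.not_dvd_ordCompl hq h0),
            Nat.ordProj_mul_ordCompl_eq_self]
      _ = ∑ x ∈ D.image (fun d : ℕ => (d.factorization q, d / q ^ d.factorization q)),
            hEU z q x.1 * fEU z x.2 := by
          rw [sum_image hinj]
      _ ≤ ∑ x ∈ range (A + 1) ×ˢ D', hEU z q x.1 * fEU z x.2 := by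
          refine sum_le_sum_of_subset_of_nonneg ?_ (fun x _ _ =>
            mul_nonneg (hEU_nonneg hz _ _) (fEU_nonneg hz _))
          intro x hx
          rw [mem_image] at hx
          obtain ⟨d, hd, rfl⟩ := hx
          rw [mem_product, mem_range]
          refine ⟨?_, ?_⟩
          · have : d.factorization q ≤ A := le_sup (f := fun d : ℕ => d.factorization q) hd
            exact Nat.lt_succ_of_le this
          · rw [hD', mem_image]
            exact ⟨d, hd, rfl⟩
      _ = (∑ a ∈ range (A + 1), hEU z q a) * ∑ d ∈ D', fEU z d := by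
          rw [sum_product, sum_mul_sum]
      _ ≤ _ := by
          refine mul_le_mul (local_EU hz hq hq3 hqz A) (ih' D' hD'1)
            (sum_nonneg fun d _ => fEU_nonneg hz d) ?_
          have h1 : 0 ≤ ∑ a ∈ range (A + 1), hEU z q a := sum_nonneg fun a _ => hEU_nonneg hz q a
          exact h1.trans (local_EU hz hq hq3 hqz A)

theorem eu : T_EU := by
  intro z hz
  refine ⟨6 * (z - 1) * (z + 1), ?_⟩
  intro P hP D hD
  have h1 := prod_EU hz P hP D hD
  have h2 : ∏ q ∈ P, (1 + (2 * (z - 1) * (1 / q) + 6 * (z - 1) * (z + 1) * (1 / (q : ℝ) ^ 2))) ≤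
      ∏ q ∈ P, exp (2 * (z - 1) * (1 / q) + 6 * (z - 1) * (z + 1) * (1 / (q : ℝ) ^ 2)) := by
    have hz1 : 0 ≤ z - 1 := by linarith
    refine prod_le_prod (fun q _ => by positivity) (fun q _ => ?_)
    have := add_one_le_exp (2 * (z - 1) * (1 / (q : ℝ)) + 6 * (z - 1) * (z + 1) * (1 / (q : ℝ) ^ 2))
    linarith
  refine h1.trans (h2.trans ?_)
  rw [← exp_sum, exp_le_exp, sum_add_distrib, ← mul_sum, ← mul_sum]
  have h3 : ∑ q ∈ P, 1 / (q : ℝ) ^ 2 ≤ 1 := by
    set N := P.sup id + 1 with hN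
    have hsub : P ⊆ Ioc 1 N := by
      intro q hq
      have h4 := (hP q hq).2.1
      have h5 : q ≤ P.sup id := le_sup (f := id) hq
      rw [mem_Ioc]
      omega
    calc ∑ q ∈ P, 1 / (q : ℝ) ^ 2 ≤ ∑ q ∈ Ioc 1 N, 1 / (q : ℝ) ^ 2 :=
          sum_le_sum_of_subset_of_nonneg hsub (fun _ _ _ => by positivity)
      _ = ∑ q ∈ Ioc 1 N, ((q : ℝ) ^ 2)⁻¹ := by simp
      _ ≤ ((1 : ℕ) : ℝ)⁻¹ - ((N : ℕ) : ℝ)⁻¹ := sum_Ioc_inv_sq_le_sub one_ne_zero (by omega)
      _ ≤ 1 := by
          have : (0 : ℝ) ≤ (N : ℝ)⁻¹ := by positivity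
          simp
  have h6 : 6 * (z - 1) * (z + 1) * ∑ q ∈ P, 1 / (q : ℝ) ^ 2 ≤ 6 * (z - 1) * (z + 1) * 1 := by
    refine mul_le_mul_of_nonneg_left h3 ?_
    have hz1 : 0 ≤ z - 1 := by linarith
    positivity
  linarith

end Pool.Agent.H30.PF
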