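import Pool.Agent.H30.PF.Targets

/-!
Module `EX` of the board pf_modules.
-/

set_option autoImplicit false

open Finset Real

namespace Pool.Agent.H30.PF.EX

theorem split (v w : ℕ) (hvw : v ≤ w) (l : List ℕ) (hl : ∀ q ∈ l, 0 < q) :
    l.length = (l.filter (fun q => decide (0 < q ∧ q ≤ v))).length +
      (l.filter (fun q => decide (v < q ∧ q ≤ w))).length +
      (l.filter (fun q => decide (w < q))).length := by
  induction l with
  | nil => simp
  | cons a l ih =>
    have ih' := ih (fun q hq => hl q (List.mem_cons_of_mem _ hq))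
    have ha : 0 < a := hl a List.mem_cons_self
    rw [List.filter_cons, List.filter_cons, List.filter_cons, List.length_cons]
    by_cases h1 : a ≤ v
    · rw [if_pos (decide_eq_true ⟨ha, h1⟩), if_neg (by simp; omega), if_neg (by simp; omega),
        List.length_cons]
      omega
    · by_cases h2 : a ≤ w
      · rw [if_neg (by simp; omega), if_pos (decide_eq_true ⟨by omega, h2⟩),
          if_neg (by simp; omega), List.length_cons]
        omega
      · rw [if_neg (by simp; omega), if_neg (by simp; omega),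
          if_pos (decide_eq_true (by omega)), List.length_cons]
        omega

theorem pow_le_prod (m : ℕ) (l : List ℕ) (hl : ∀ q ∈ l, m ≤ q) : m ^ l.length ≤ l.prod := by
  induction l with
  | nil => simp
  | cons a l ih =>
    rw [List.length_cons, List.prod_cons, pow_succ, mul_comm]
    exact Nat.mul_le_mul (hl a List.mem_cons_self) (ih fun q hq => hl q (List.mem_cons_of_mem _ hq))

theorem big_le {n w : ℕ} (hn : n ≠ 0) :
    (w + 1) ^ (n.primeFactorsList.filter (fun q => decide (w < q))).length ≤ n := by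
  have h1 := pow_le_prod (w + 1) (n.primeFactorsList.filter (fun q => decide (w < q))) (by
    intro q hq
    rw [List.mem_filter] at hq
    exact of_decide_eq_true hq.2)
  refine h1.trans (Nat.le_of_dvd (Nat.pos_of_ne_zero hn) ?_)
  have h2 := (List.filter_sublist (l := n.primeFactorsList)
    (p := fun q => decide (w < q))).prod_dvd_prod
  rwa [Nat.prod_primeFactorsList hn] at h2

theorem ex (hE1 : T_E1) (hE2 : T_E2) : T_EX := by
  intro z α η B hz hz3 hα hη hB
  set c : ℝ := 4 * α + 8 with hc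
  set θ : ℝ := min (η / 4) 1 with hθ
  have hθ0 : 0 < θ := lt_min (by linarith) one_pos
  have hθη : θ ≤ η / 4 := min_le_left _ _
  have hθ1 : θ ≤ 1 := min_le_right _ _
  have hc8 : 8 ≤ c := by linarith
  obtain ⟨C1, hC1, hE1⟩ := hE1 z hz hz3
  obtain ⟨C2, x2, hE2⟩ := hE2 θ c B hθ0 (by linarith) hB
  set Y : ℝ := max (exp 1) ((4 * c) ^ 2) with hY
  refine ⟨max C1 (max C2 0), max x2 ⌈exp Y⌉₊, fun x hx => ?_⟩
  have hx2 : x2 ≤ x := (le_max_left _ _).trans hx
  have hxY : exp Y ≤ x := (Nat.le_ceil _).trans (by exact_mod_cast (le_max_right _ _).trans hx)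
  have hx0 : (0 : ℝ) < x := (exp_pos _).trans_le hxY
  have hlx : Y ≤ log x := (le_log_iff_exp_le hx0).2 hxY
  have hle : exp 1 ≤ log x := (le_max_left _ _).trans hlx
  have hlc : (4 * c) ^ 2 ≤ log x := (le_max_right _ _).trans hlx
  have hl1 : 1 ≤ log x := (one_le_exp zero_le_one).trans hle
  have hl0 : 0 < log x := by linarith
  set L := log (log x) with hL
  have hL1 : 1 ≤ L := (le_log_iff_exp_le hl0).2 hle
  have hL0 : 0 < L := by linarith
  have hx1 : (1 : ℝ) < x := by
    have := (log_pos_iff hx0.le).1 hl0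
    exact this
  -- `log 3 * c * L ≤ log x`
  have hbig : log 3 * (c * L) ≤ log x := by
    have h1 : L ≤ 2 * √(log x) := by
      have h2 : log (√(log x)) = L / 2 := by
        rw [log_sqrt hl0.le]
      have h3 := log_le_sub_one_of_pos (sqrt_pos.2 hl0)
      linarith
    have h4 : 4 * c ≤ √(log x) := by
      rw [le_sqrt (by linarith) hl0.le]
      exact hlc
    have h5 : log 3 ≤ 2 := by
      have := log_le_sub_one_of_pos (show (0 : ℝ) < 3 by norm_num)
      linarith
    have h6 : √(log x) * √(log x) = log x := mul_self_sqrt hl0.le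
    calc log 3 * (c * L) ≤ 2 * (c * (2 * √(log x))) := by
          refine mul_le_mul h5 ?_ (by positivity) (by norm_num)
          exact mul_le_mul_of_nonneg_left h1 (by linarith)
      _ = (4 * c) * √(log x) := by ring
      _ ≤ √(log x) * √(log x) := mul_le_mul_of_nonneg_right h4 (sqrt_nonneg _)
      _ = log x := h6
  set v := ⌊(x : ℝ) ^ (1 / (c * L))⌋₊ with hv
  set w := ⌊(x : ℝ) ^ (1 / (θ * L))⌋₊ with hw
  have hcL : 0 < c * L := by positivity
  have hθL : 0 < θ * L := by positivity
  have hv3 : 3 ≤ v := by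
    refine Nat.le_floor ?_
    push_cast
    rw [rpow_def_of_pos hx0]
    have h1 : log 3 ≤ log x * (1 / (c * L)) := by
      rw [mul_one_div, le_div_iff₀ hcL]
      exact hbig
    calc (3 : ℝ) = exp (log 3) := (exp_log (by norm_num)).symm
      _ ≤ _ := exp_le_exp.2 h1
  have hvw : v ≤ w := by
    refine Nat.floor_le_floor ?_
    refine rpow_le_rpow_of_exponent_le hx1.le ?_
    refine one_div_le_one_div_of_le hθL ?_
    exact mul_le_mul_of_nonneg_right (by linarith) hL0.le
  have hvx' : (v : ℝ) ≤ (x : ℝ) ^ (1 / (c * L)) := Nat.floor_le (by positivity)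
  have hvx : v ≤ x := by
    have h1 : (v : ℝ) ≤ x := by
      refine hvx'.trans ?_
      calc (x : ℝ) ^ (1 / (c * L)) ≤ (x : ℝ) ^ (1 : ℝ) := by
            refine rpow_le_rpow_of_exponent_le hx1.le ?_
            rw [div_le_one hcL]
            nlinarith
        _ = x := rpow_one _
    exact_mod_cast h1
  set J := ⌈α * L⌉₊ with hJ
  have hJ1 : α * L ≤ J := Nat.le_ceil _
  have hJ2 : (J : ℝ) < α * L + 1 := Nat.ceil_lt_add_one (by positivity)
  have hvJ : v ^ (4 * J) ≤ x := by
    have h1 : ((v : ℝ)) ^ (4 * J) ≤ x := by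
      calc (v : ℝ) ^ (4 * J) ≤ ((x : ℝ) ^ (1 / (c * L))) ^ (4 * J) :=
            pow_le_pow_left₀ (Nat.cast_nonneg _) hvx' _
        _ = (x : ℝ) ^ (1 / (c * L) * ((4 * J : ℕ) : ℝ)) := by
            rw [rpow_mul hx0.le, rpow_natCast]
        _ ≤ (x : ℝ) ^ (1 : ℝ) := by
            refine rpow_le_rpow_of_exponent_le hx1.le ?_
            rw [one_div_mul_eq_div, div_le_one hcL]
            push_cast
            nlinarith
        _ = x := rpow_one _
    exact_mod_cast h1
  have h1 := hE1 x v J hv3 hvx hvJ α hα hJ1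
  have h2 := hE2 x hx2
  have hsub : (Icc 3 x).filter (fun p => p.Prime ∧
      (α + η) * log (log x) ≤ ((p ^ 2 - 2).primeFactorsList.length : ℝ)) ⊆
      (Icc 3 x).filter (fun p => p.Prime ∧ α * log (log x) ≤ (Om 0 v (p ^ 2 - 2) : ℝ)) ∪
      (Icc 3 x).filter (fun p => p.Prime ∧ θ * log (log x) / 4 ≤ (Om v w (p ^ 2 - 2) : ℝ)) := by
    intro p hp
    rw [mem_filter, mem_Icc] at hp
    obtain ⟨⟨hp3, hpx⟩, hpp, hlen⟩ := hp
    rw [mem_union, mem_filter, mem_filter, mem_Icc]
    by_contra hcon
    rw [not_or] at hcon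
    have hc1 : ¬ α * log (log x) ≤ (Om 0 v (p ^ 2 - 2) : ℝ) := fun h =>
      hcon.1 ⟨⟨hp3, hpx⟩, hpp, h⟩
    have hc2 : ¬ θ * log (log x) / 4 ≤ (Om v w (p ^ 2 - 2) : ℝ) := fun h =>
      hcon.2 ⟨⟨hp3, hpx⟩, hpp, h⟩
    rw [not_le] at hc1 hc2
    set n := p ^ 2 - 2 with hn
    have hp9 : 9 ≤ p ^ 2 := by nlinarith
    have hn0 : n ≠ 0 := by omega
    have hs := split v w hvw n.primeFactorsList
      (fun q hq => (Nat.prime_of_mem_primeFactorsList hq).pos)
    have hb := big_le (w := w) hn0
    set k := (n.primeFactorsList.filter (fun q => decide (w < q))).length with hk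
    have hk2 : (k : ℝ) ≤ 2 * θ * L := by
      have g1 : ((w : ℝ) + 1) ^ k ≤ (x : ℝ) ^ 2 := by
        have g2 : (w + 1) ^ k ≤ x ^ 2 := by
          refine hb.trans ?_
          have : p ^ 2 ≤ x ^ 2 := Nat.pow_le_pow_left hpx 2
          omega
        exact_mod_cast g2
      have g3 : (x : ℝ) ^ (1 / (θ * L)) < (w : ℝ) + 1 := Nat.lt_floor_add_one _
      have g4 : log x * (1 / (θ * L)) ≤ log ((w : ℝ) + 1) := by
        rw [le_log_iff_exp_le (by positivity), ← rpow_def_of_pos hx0]
        exact g3.le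
      have g5 : (k : ℝ) * log ((w : ℝ) + 1) ≤ 2 * log x := by
        have := log_le_log (by positivity) g1
        rw [log_pow, log_pow] at this
        exact_mod_cast this
      have g6 : (k : ℝ) * (log x * (1 / (θ * L))) ≤ 2 * log x :=
        (mul_le_mul_of_nonneg_left g4 (Nat.cast_nonneg _)).trans g5
      have g7 : (k : ℝ) * (log x * (1 / (θ * L))) = (k / (θ * L)) * log x := by
        ring
      rw [g7] at g6
      have g8 : (k : ℝ) / (θ * L) ≤ 2 := le_of_mul_le_mul_right g6 hl0
      rw [div_le_iff₀ hθL] at g8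
      linarith
    have hs' : ((n.primeFactorsList.length : ℕ) : ℝ) = (Om 0 v n : ℝ) + (Om v w n : ℝ) + k := by
      rw [hs]
      push_cast
      rfl
    rw [← hL] at hlen hc1 hc2
    rw [hs'] at hlen
    have hθLη : θ * L ≤ η / 4 * L := mul_le_mul_of_nonneg_right hθη hL0.le
    have hηL : 0 < η * L := mul_pos hη hL0
    nlinarith
  have hcard : (((Icc 3 x).filter (fun p => p.Prime ∧
      (α + η) * log (log x) ≤ ((p ^ 2 - 2).primeFactorsList.length : ℝ))).card : ℝ) ≤
      (((Icc 3 x).filter (fun p => p.Prime ∧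
        α * log (log x) ≤ (Om 0 v (p ^ 2 - 2) : ℝ))).card : ℝ) +
      (((Icc 3 x).filter (fun p => p.Prime ∧
        θ * log (log x) / 4 ≤ (Om v w (p ^ 2 - 2) : ℝ))).card : ℝ) := by
    exact_mod_cast (card_le_card hsub).trans (card_union_le _ _)
  have hm1 : C1 ≤ max C1 (max C2 0) := le_max_left _ _
  have hm2 : C2 ≤ max C1 (max C2 0) := (le_max_left _ _).trans (le_max_right _ _)
  refine hcard.trans (add_le_add (h1.trans ?_) (h2.trans ?_))
  · refine mul_le_mul_of_nonneg_right ?_ (rpow_nonneg hl0.le _)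
    exact div_le_div_of_nonneg_right (mul_le_mul_of_nonneg_right hm1 hx0.le) hl0.le
  · exact div_le_div_of_nonneg_right (mul_le_mul_of_nonneg_right hm2 hx0.le)
      (rpow_nonneg hl0.le _)

end Pool.Agent.H30.PF.EX
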