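import Pool.Agent.H30.PF.Targets

/-!
Modules `TR` and `EU` of the board pf_modules.
-/

set_option autoImplicit false

open Finset Real

namespace Pool.Agent.H30.PF

theorem G_nonneg_TR {z : ℝ} (hz : 1 ≤ z) (d : ℕ) : 0 ≤ G z d :=
  prod_nonneg fun _ _ => sub_nonneg.2 (pow_le_pow_right₀ hz (Nat.sub_le _ _))

theorem tr : T_SG → T_TR := by
  intro hSG z u v J n hz hn
  set L := n.primeFactorsList.filter (fun q => decide (u < q ∧ q ≤ v)) with hL
  set L' := L.take J with hL'
  have hsub : L'.Sublist n.primeFactorsList := (List.take_sublist J L).trans List.filter_sublist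
  have hlen : L'.length = min (Om u v n) J := by
    rw [hL', List.length_take, min_comm]
    rfl
  set m := L'.prod with hm
  have hprime : ∀ q ∈ L', q.Prime := fun q hq =>
    Nat.prime_of_mem_primeFactorsList (hsub.subset hq)
  have hmn : m ∣ n := by
    have h1 := hsub.prod_dvd_prod
    rwa [Nat.prod_primeFactorsList hn] at h1
  have hm0 : m ≠ 0 := fun h => hn (by rw [h] at hmn; exact zero_dvd_iff.1 hmn)
  have hperm : L'.Perm m.primeFactorsList := Nat.primeFactorsList_unique rfl hprime
  have hlm : m.primeFactorsList.length = min (Om u v n) J := by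
    rw [← hperm.length_eq, hlen]
  rw [← hlm, ← hSG z m hm0]
  refine sum_le_sum_of_subset_of_nonneg ?_ (fun d _ _ => G_nonneg_TR hz d)
  intro d hd
  have hdm := Nat.dvd_of_mem_divisors hd
  rw [mem_filter, Nat.mem_divisors]
  refine ⟨⟨hdm.trans hmn, hn⟩, ?_, ?_⟩
  · have h1 : d.primeFactorsList.length ≤ m.primeFactorsList.length :=
      (Nat.primeFactorsList_sublist_of_dvd hdm hm0).length_le
    rw [hlm] at h1
    exact h1.trans (min_le_right _ _)
  · intro q hq
    have h1 : q ∈ m.primeFactorsList :=
      Nat.mem_primeFactors_iff_mem_primeFactorsList.1 (Nat.primeFactors_mono hdm hm0 hq)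
    have h2 : q ∈ L := List.mem_of_mem_take (hperm.mem_iff.2 h1)
    rw [hL, List.mem_filter] at h2
    exact of_decide_eq_true h2.2

end Pool.Agent.H30.PF
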