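import Pool.Agent.H93.PF.TargetsD

/-!
Row XMA of the board pfs_modules: where `fm` is coded.
-/

set_option autoImplicit false

open MeasureTheory Filter Topology Finset Pool.Agent.H93.PF

namespace Pool.Agent.H33.PF

theorem Bk_mono {Y : Type} [MeasurableSpace Y] (T : Y ≃ᵐ Y) (L : ℕ) (D : ℕ → Set Y) {i j : ℕ}
    (h : i ≤ j) : Bk T L D j ⊆ Bk T L D i := by
  induction j with
  | zero =>
    have : i = 0 := by omega
    subst this
    exact fun _ h => h
  | succ j ih =>
    rcases Nat.lt_or_ge i (j + 1) with h1 | h1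
    · exact fun y hy => ih (by omega) hy.1
    · have : i = j + 1 := by omega
      subst this
      exact fun _ h => h

theorem gap_lt {L : ℕ} (hL : 2 ≤ L) (j : ℕ) : gg L j < nn L (j + 1) := by
  cases j with
  | zero =>
    show L + 1 < 14 * 16 ^ 0 * L
    rw [pow_zero, mul_one]
    omega
  | succ j =>
    show 2 * 16 ^ (j + 1) * L < 14 * 16 ^ (j + 1) * L
    have h1 : 0 < 16 ^ (j + 1) * L := Nat.mul_pos (by positivity) (by omega)
    rw [mul_assoc, mul_assoc]
    omega

theorem pf_XMA (hLNB : T_LNB) (hBKF : T_BKF) : T_XMA := by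
  intro Y _ T L D K P code hMk y hRc j s g hs hN
  have _ := hLNB
  have hL := hMk.two
  obtain ⟨-, -, h1, -⟩ := hBKF Y T L D hMk y hRc
  have hsj : s ∈ ob T (Bk T L D j) y := Bk_mono T L D (Nat.le_succ j) hs
  obtain ⟨g', -, hg', hN'⟩ := h1 j s hsj
  obtain rfl : g = g' := hN.uniq hN'
  obtain ⟨g2, hg2, -, hN2⟩ := h1 (j + 1) s hs
  have hlt : g < g2 := (hg'.trans_lt (gap_lt hL j)).trans_le hg2
  have hg0 : 0 < g := hN.1
  have hin : s + g ∈ ob T (Bk T L D j) y := hN.2.1
  have hout : s + g ∉ ob T (Bk T L D (j + 1)) y := hN2.2.2 _ (by omega) (by omega)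
  refine ⟨Bk_mono T L D (Nat.zero_le j) hin, ?_⟩
  have hlv : lv T L D (zp T (s + g) y) = j := by
    unfold lv
    refine le_antisymm (Nat.sInf_le hout) ?_
    refine le_csInf ⟨j, hout⟩ ?_
    intro k hk
    by_contra hkj
    exact hk (Bk_mono T L D (by omega) hin)
  have hpa : pa T (Bk T L D j) (zp T (s + g) y) = g := by
    unfold pa
    have hmem : g ∈ {b : ℕ | 1 ≤ b ∧ zp T (-(b : ℤ)) (zp T (s + g) y) ∈ Bk T L D j} := by
      refine ⟨hg0, ?_⟩
      rw [← zp_add]
      have : -(g : ℤ) + (s + g) = s := by ring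
      rw [this]
      exact hsj
    refine le_antisymm (Nat.sInf_le hmem) ?_
    refine le_csInf ⟨g, hmem⟩ ?_
    rintro b ⟨hb1, hb2⟩
    by_contra hbg
    rw [← zp_add] at hb2
    exact hN.2.2 (-(b : ℤ) + (s + g)) (by omega) (by omega) hb2
  unfold xm
  rw [hlv, hpa, ← zp_add]
  have : -(g : ℤ) + (s + g) = s := by ring
  rw [this]

end Pool.Agent.H33.PF
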